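import Pool.Agent.Y121.ZI.Stm

/-!
Project ZI, job ZI-GOODB: weights of products.
-/

set_option autoImplicit false

open scoped TensorProduct

universe u v w

namespace Pool.Agent.Y739.ZI

open Module Pool.Agent.Y133.Half
open Pool.Agent.Y121.ZI Pool.Agent.Y121.ZI.NCTheory

variable {K : Type u} [Field K] [CharZero K]

section

variable {T : NCTheory.{u, v, w} K}

/-- The rank of the trace form between two objects. -/
noncomputable def ai (X Y : T.Obj) : ℕ :=
  NCTheory.a (T := T) X LinearMap.id Y LinearMap.id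

omit [CharZero K] in
theorem ai_comm (X Y : T.Obj) : ai (T := T) X Y = ai (T := T) Y X := a_comm S_id

omit [CharZero K] in
theorem ai_left {X X' : T.Obj} (i : OIso (T := T) X X') (Y : T.Obj) :
    ai (T := T) X Y = ai (T := T) X' Y := PIso.a_eq i Y LinearMap.id

omit [CharZero K] in
theorem ai_right {Y Y' : T.Obj} (X : T.Obj) (i : OIso (T := T) Y Y') :
    ai (T := T) X Y = ai (T := T) X Y' := PIso.a_eq_right S_id S_id i X LinearMap.id

omit [CharZero K] in
theorem d1 {Z Z' : T.Obj} (h : DP (T := T) Z Z' LinearMap.id LinearMap.id) (X Y : T.Obj) :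
    ai (T := T) (T.ten X Z) Y ≤ ai (T := T) X (T.ten Y Z') := by
  have h1 := dual_move h (LinearMap.id : T.H X →ₗ[K] T.H X) (LinearMap.id : T.H Y →ₗ[K] T.H Y)
  rw [ex_id, ex_id] at h1
  exact h1

omit [CharZero K] in
theorem b_eq (P Y : T.Obj) :
    NCTheory.b (T := T) P LinearMap.id Y = ai (T := T) (T.ten P Y) Y := by
  rw [NCTheory.b, ex_id]
  rfl

/-- The last two factors may be interchanged. -/
theorem sw (X Y Z : T.Obj) :
    OIso (T := T) (T.ten (T.ten X Y) Z) (T.ten (T.ten X Z) Y) :=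
  PIso.trans (OIso.assoc X Y Z) (PIso.trans (OIso.ten (PIso.refl X LinearMap.id) (OIso.swap Y Z))
    (PIso.symm (OIso.assoc X Z Y)))

theorem swap_factor (h : SDual2 T) (U V Z : T.Obj) :
    ai (T := T) (T.ten U Z) (T.ten V Z) ≤ ai (T := T) (T.ten U (T.op Z)) (T.ten V (T.op Z)) := by
  calc ai (T := T) (T.ten U Z) (T.ten V Z) = ai (T := T) (T.ten V Z) (T.ten U Z) := ai_comm _ _
    _ ≤ ai (T := T) V (T.ten (T.ten U Z) (T.op Z)) := d1 (h Z).1 _ _
    _ = ai (T := T) V (T.ten (T.ten U (T.op Z)) Z) := ai_right _ (sw _ _ _)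
    _ = ai (T := T) (T.ten (T.ten U (T.op Z)) Z) V := ai_comm _ _
    _ ≤ _ := d1 (h Z).1 _ _

end

variable (T : NCTheory.{u, v, w} K)

theorem good2 (h : SDual2 T) : SGood2 T := by
  intro A P j m k hG
  obtain ⟨hG1, hG2⟩ := hG
  have ho : ∀ Z : T.Obj, finrank K (T.H (T.op Z)) = finrank K (T.H Z) := fun Z => (h Z).2.2
  refine ⟨?_, fun n => ?_⟩
  · rw [rr, xx, finrank_ten, finrank_ten, ho (T.ten (T.pow A m) (T.op (T.pow A k))), finrank_ten,
      ho, finrank_pow, finrank_pow, hG1]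
    ring
  · have i1 : OIso (T := T) (T.ten (T.ten (T.pow A n) (T.pow A m)) (T.pow A k))
        (T.pow A (n + m + k)) :=
      PIso.trans (OIso.ten (OIso.pow_add A n m) (PIso.refl _ LinearMap.id))
        (OIso.pow_add A (n + m) k)
    have i2 : OIso (T := T)
        (T.ten (T.ten (T.ten P (T.pow A n)) (T.pow A m)) (T.pow A k))
        (T.ten P (T.pow A (n + m + k))) :=
      PIso.trans (OIso.ten (OIso.assoc P (T.pow A n) (T.pow A m)) (PIso.refl _ LinearMap.id))
        (PIso.trans (OIso.assoc P (T.ten (T.pow A n) (T.pow A m)) (T.pow A k))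
          (OIso.ten (PIso.refl _ LinearMap.id) i1))
    have i3 : ∀ V : T.Obj, OIso (T := T) (T.ten (T.ten V (T.pow A m)) (T.op (T.pow A k)))
        (T.ten V (xx A m k)) := fun V => OIso.assoc V (T.pow A m) (T.op (T.pow A k))
    have i4 : ∀ X V R : T.Obj, OIso (T := T)
        (T.ten (T.ten (T.ten P V) X) (T.op X)) (T.ten (T.ten (rr X) P) V) := fun X V R =>
      PIso.trans (OIso.assoc (T.ten P V) X (T.op X))
        (PIso.trans (OIso.swap (T.ten P V) (rr X)) (PIso.symm (OIso.assoc (rr X) P V)))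
    have e : n + (m + k + j) = n + m + k + j := by ring
    rw [e]
    calc al A (n + m + k + j) ≤ NCTheory.b P LinearMap.id (T.pow A (n + m + k)) := hG2 _
      _ = ai (T := T) (T.ten P (T.pow A (n + m + k))) (T.pow A (n + m + k)) := b_eq _ _
      _ = ai (T := T) (T.ten (T.ten (T.ten P (T.pow A n)) (T.pow A m)) (T.pow A k))
          (T.pow A (n + m + k)) := (ai_left i2 _).symm
      _ = ai (T := T) (T.ten (T.ten (T.ten P (T.pow A n)) (T.pow A m)) (T.pow A k))
          (T.ten (T.ten (T.pow A n) (T.pow A m)) (T.pow A k)) := (ai_right _ i1).symm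
      _ ≤ ai (T := T) (T.ten (T.ten (T.ten P (T.pow A n)) (T.pow A m)) (T.op (T.pow A k)))
          (T.ten (T.ten (T.pow A n) (T.pow A m)) (T.op (T.pow A k))) := swap_factor h _ _ _
      _ = ai (T := T) (T.ten (T.ten P (T.pow A n)) (xx A m k))
          (T.ten (T.ten (T.pow A n) (T.pow A m)) (T.op (T.pow A k))) := ai_left (i3 _) _
      _ = ai (T := T) (T.ten (T.ten P (T.pow A n)) (xx A m k)) (T.ten (T.pow A n) (xx A m k)) :=
          ai_right _ (i3 _)
      _ = ai (T := T) (T.ten (T.pow A n) (xx A m k)) (T.ten (T.ten P (T.pow A n)) (xx A m k)) :=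
          ai_comm _ _
      _ ≤ ai (T := T) (T.pow A n)
          (T.ten (T.ten (T.ten P (T.pow A n)) (xx A m k)) (T.op (xx A m k))) :=
          d1 (h _).1 _ _
      _ = ai (T := T) (T.pow A n) (T.ten (T.ten (rr (xx A m k)) P) (T.pow A n)) :=
          ai_right _ (i4 _ _ P)
      _ = ai (T := T) (T.ten (T.ten (rr (xx A m k)) P) (T.pow A n)) (T.pow A n) := ai_comm _ _
      _ = _ := (b_eq _ _).symm

end Pool.Agent.Y739.ZI
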